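import Pool.Agent.X292.TS.Gou
import Pool.Agent.X292.TG.Lvl
import Pool.Agent.X292.SP.Gen
import Pool.Agent.X292.AV.Gen

/-!
# Families of symplectic constituents over an algebraically closed field
-/

set_option linter.unusedSectionVars false

namespace Pool.Agent.X292.TS

open Module Finset Function Pool.Agent.TH125.Gal Pool.Agent.Y127.G Pool.Agent.Y127.C
  Pool.Agent.X292.SP Pool.Agent.X292.TG Pool.Agent.Y126.JB

/-- The number of the Jordan blocks of size `m` of a nilpotent operator. -/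
noncomputable def jordanBlocks {K : Type} [Field K] {W : Type} [AddCommGroup W] [Module K W]
    (A : Module.End K W) (m : ℕ) : ℕ :=
  finrank K (LinearMap.ker A ⊓ LinearMap.range (A ^ (m - 1)) : Submodule K W) -
    finrank K (LinearMap.ker A ⊓ LinearMap.range (A ^ m) : Submodule K W)

/-- The operator is nilpotent, there is a Jordan block of size one, all the other blocks have even
size, and there is an even number which is the size of exactly one block. -/
def EvenBlocks {K : Type} [Field K] {W : Type} [AddCommGroup W] [Module K W]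
    (A : Module.End K W) : Prop :=
  IsNilpotent A ∧ jordanBlocks A 1 ≠ 0 ∧ (∀ m, 3 ≤ m → Odd m → jordanBlocks A m = 0) ∧
    ∃ m, Even m ∧ jordanBlocks A m = 1

/-- The operator is nilpotent with one Jordan block, of size at least two. -/
def OneBlock {K : Type} [Field K] {W : Type} [AddCommGroup W] [Module K W]
    (A : Module.End K W) : Prop :=
  IsNilpotent A ∧ 2 ≤ finrank K W ∧ A ^ (finrank K W - 1) ≠ 0

/-- The dimension is two, or the set of the eigenvalues of some element is not of the form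
`a, a c, a c ^ 2, …, a c ^ (dim - 1)`. -/
def NotGeometric {K : Type} [Field K] {W : Type} [AddCommGroup W] [Module K W] {G : Type}
    [Group G] (σ : G →* Module.End K W) : Prop :=
  finrank K W = 2 ∨ ∃ φ : G, ∀ a c : K, {b : K | ∃ x : W, x ≠ 0 ∧ σ φ x = b • x} ≠
    {b | ∃ i < finrank K W, b = a * c ^ i}

/-- The number `d` is a *defect* of `g`: the rank of `g - 1`, or the algebraic multiplicity of a
nonzero eigenvalue of `(g - 1) γ (g' - 1) γ⁻¹`, where `(g' - 1) ^ 2 = 0` and `γ` is in `G`. -/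
def IsDefect {K : Type} [Field K] {W : Type} [AddCommGroup W] [Module K W] {P G : Type} [Group P]
    [Group G] (ρ : P →* Module.End K W) (σ : G →* Module.End K W) (g : P) (d : ℕ) : Prop :=
  d = finrank K (LinearMap.range (ρ g - 1)) ∨
    ∃ (g' : P) (γ : G), (ρ g' - 1) * (ρ g' - 1) = 0 ∧ ∃ a : K, a ≠ 0 ∧
      d = finrank K (Module.End.maxGenEigenspace ((ρ g - 1) * (σ γ * (ρ g' - 1) * σ γ⁻¹)) a)

/-- `(g - 1) ^ 2 = 0`, and the defects of `g` have no common prime factor, or two is a defect. -/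
def IsToric {K : Type} [Field K] {W : Type} [AddCommGroup W] [Module K W] {P G : Type} [Group P]
    [Group G] (ρ : P →* Module.End K W) (σ : G →* Module.End K W) (g : P) : Prop :=
  (ρ g - 1) * (ρ g - 1) = 0 ∧
    ((∀ p : ℕ, p.Prime → ∃ d, IsDefect ρ σ g d ∧ ¬ p ∣ d) ∨ IsDefect ρ σ g 2)

/-- Some element `g` is as in `IsToric`, or it is unipotent with Jordan blocks as in `EvenBlocks`, or
as in `OneBlock` (and `NotGeometric` holds). -/
def HasSpecialElement {K : Type} [Field K] {W : Type} [AddCommGroup W] [Module K W] {P G : Type}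
    [Group P] [Group G] (ρ : P →* Module.End K W) (σ : G →* Module.End K W) : Prop :=
  ∃ g : P, IsToric ρ σ g ∨ EvenBlocks (ρ g - 1) ∨ OneBlock (ρ g - 1) ∧ NotGeometric σ

theorem typ2_of {K : Type} [Field K] [CharZero K] {W : Type} [AddCommGroup W] [Module K W]
    [FiniteDimensional K W] {A : Module.End K W} (h : EvenBlocks A) : ∃ D, Typ2 A D := by
  obtain ⟨h1, h2, h3, m, hm, h4⟩ := h
  have hle : ∀ j, finrank K (Kj A (j + 1)) ≤ finrank K (Kj A j) := fun j =>
    Submodule.finrank_mono (Kj_le (Nat.le_succ j))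
  have hb : ∀ m, jordanBlocks A m = finrank K (Kj A (m - 1)) - finrank K (Kj A m) := fun m => rfl
  have hm0 : m ≠ 0 := by
    rintro rfl
    rw [hb] at h4
    simp at h4
  obtain ⟨D, rfl⟩ := Nat.exists_eq_succ_of_ne_zero hm0
  rw [hb, Nat.succ_eq_add_one, Nat.add_sub_cancel] at h4
  refine ⟨D, ⟨?_, h1, ?_, ?_, ?_⟩⟩
  · rw [Nat.succ_eq_add_one, Nat.even_add_one, Nat.not_even_iff_odd] at hm
    exact hm
  · have := hle D
    omega
  · intro j hj2 hje
    have h5 := h3 (j + 1) (by omega) hje.add_one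
    rw [hb, Nat.add_sub_cancel] at h5
    symm
    refine Submodule.eq_of_le_of_finrank_le (Kj_le (Nat.le_succ j)) ?_
    omega
  · intro h5
    apply h2
    rw [hb, Nat.sub_self, ← h5, Nat.sub_self]

variable {K : Type} [Field K] [CharZero K] [IsAlgClosed K] {P G : Type} [Group P] [Group G]
  {ι : Type} {T : ι → Type} [∀ i, AddCommGroup (T i)] [∀ i, Module K (T i)]
  [∀ i, FiniteDimensional K (T i)] {ρ : ∀ i, P →* (T i →ₗ[K] T i)}
  {σ : ∀ i, G →* (T i →ₗ[K] T i)}

section one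

variable {i : ι} {B : T i →ₗ[K] T i →ₗ[K] K} (hal : ∀ x y, B x y = -B y x)
  (hnd : ∀ x, (∀ y, B x y = 0) → x = 0) (hne : ∃ x : T i, x ≠ 0)
  (hρ : ∀ g x y, B (ρ i g x) (ρ i g y) = B x y)
  {χ : G →* K} (hσ : ∀ g x y, B (σ i g x) (σ i g y) = χ g * B x y) (hSI : SI (σ i))
  (hn : ∀ (γ : G) (S : Type) [Fintype S] [DecidableEq S] (s : S → ι)
    (f : MultilinearMap K (fun j => T (s j)) K), Fixd ρ s f →
      Fixd ρ s (f.compLinearMap fun j => σ (s j) γ))

/-- elements with square zero are in the Lie algebra -/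
theorem sub_mem {g : P} (h : (ρ i g - 1 : Module.End K (T i)) * (ρ i g - 1) = 0) :
    (ρ i g - 1 : Module.End K (T i)) ∈ rs (LL ρ) i := by
  obtain ⟨J, hJ, hlog⟩ := exists_LLlog ρ g
  have h1 := hlog i 2 (by rw [pow_two]; exact h)
  rw [lg_two] at h1
  exact ⟨J, hJ, h1⟩

include hal hnd hρ hσ hSI hn in
/-- **The whole symplectic Lie algebra.** -/
theorem all_of_element (hel : HasSpecialElement (ρ i) (σ i)) (x y : T i) :
    oo B (-1) x y ∈ rs (LL ρ) i := by
  have halt : ∀ v, B v v = 0 := alt_self hal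
  have hbr : ∀ Y ∈ rs (LL ρ) i, ∀ Z ∈ rs (LL ρ) i, Y * Z - Z * Y ∈ rs (LL ρ) i := rs_br
  have hconj : ∀ g : G, ∀ Y ∈ rs (LL ρ) i,
      (σ i g * Y * σ i g⁻¹ : Module.End K (T i)) ∈ rs (LL ρ) i := rs_conj hn
  have hsp : ∀ Y ∈ rs (LL ρ) i, ∀ u w, B (Y u) w + B u (Y w) = 0 := rs_skew hρ
  have hSS : ∀ {x y}, Pool.Agent.H204R3.SP.SS B x y ∈ rs (LL ρ) i →
      oo B (-1) x y ∈ rs (LL ρ) i := by
    intro x y h
    have e : oo B (-1) x y = Pool.Agent.H204R3.SP.SS B x y := by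
      apply LinearMap.ext
      intro z
      rw [Pool.Agent.H204R3.SP.SS_apply, o_apply, add_comm]
    rw [e]
    exact h
  apply hSS
  obtain ⟨g, hel⟩ := hel
  obtain ⟨J, hJ, hlog⟩ := exists_LLlog ρ g
  rcases hel with ⟨h2, hd⟩ | hev | ⟨⟨h1, h2, h3⟩, h4⟩
  · have hD : ∀ d, IsDefect (ρ i) (σ i) g d →
        Pool.Agent.Y126.OT.Defect (rs (LL ρ) i) (ρ i g - 1 : Module.End K (T i)) d := by
      rintro d (h | ⟨g', γ, h3, a, ha, h⟩)
      · exact Or.inl h
      · refine Or.inr ⟨_, hconj γ _ (sub_mem h3), ?_, a, ha, h⟩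
        have e1 : (σ i γ⁻¹ * σ i γ : Module.End K (T i)) = 1 := by
          rw [← map_mul, inv_mul_cancel, map_one]
        calc (σ i γ * (ρ i g' - 1) * σ i γ⁻¹ * (σ i γ * (ρ i g' - 1) * σ i γ⁻¹) :
              Module.End K (T i))
            = σ i γ * ((ρ i g' - 1) * (σ i γ⁻¹ * σ i γ) * (ρ i g' - 1)) * σ i γ⁻¹ := by
              simp only [mul_assoc]
          _ = 0 := by rw [e1, mul_one, h3, mul_zero, zero_mul]
    exact Pool.Agent.X292.AV.toric_gen (σ i) (𝔥 := rs (LL ρ) i) χ hSI hbr hconj B halt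
      (fun u hu => hnd u fun v => by rw [hal, hu, neg_zero]) hσ hsp (sub_mem h2) h2
      (hd.imp (fun h p hp => by
        obtain ⟨d, h3, h4⟩ := h p hp
        exact ⟨d, hD d h3, h4⟩) (hD 2)) x y
  · obtain ⟨D, ht⟩ := typ2_of hev
    obtain ⟨k, hk⟩ := ht.nil
    obtain ⟨V, hV, hc, h1⟩ := lgC_eq (K := K) hk
    refine even_gen (L := rs (LL ρ) i) (ρ := σ i) (χ := χ) halt hnd hσ hSI hconj hbr hsp
      (e := J i) ⟨J, hJ, rfl⟩ (D := D) ?_ x y
    rw [hlog i k hk, h1]
    exact typ2_unit hV hc ht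
  · obtain ⟨D, hD⟩ : ∃ D, finrank K (T i) = D + 1 := ⟨finrank K (T i) - 1, by omega⟩
    rw [hD, Nat.add_sub_cancel] at h3
    obtain ⟨n, hn0⟩ := h1
    have hD1 : (ρ i g - 1 : Module.End K (T i)) ^ (D + 1) = 0 := by
      rw [← hD]
      have h5 := (LinearMap.isNilpotent_iff_charpoly (ρ i g - 1 : Module.End K (T i))).1 ⟨n, hn0⟩
      have h6 := LinearMap.aeval_self_charpoly (ρ i g - 1 : Module.End K (T i))
      rwa [h5, map_pow, Polynomial.aeval_X] at h6
    obtain ⟨V, hV, hc, h5⟩ := lgC_eq (K := K) hD1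
    refine single_gen (L := rs (LL ρ) i) (ρ := σ i) halt hnd hSI hconj hbr hsp
      (e := J i) ⟨J, hJ, rfl⟩ (D := D) (by omega) hD ?_ ?_ ?_ x y
    · rw [hlog i _ hD1, h5]
      exact (pow_unit hV hc _).2 hD1
    · rw [hlog i _ hD1, h5]
      exact fun h => h3 ((pow_unit hV hc _).1 h)
    · rcases h4 with h4 | ⟨φ, hφ⟩
      · exact Or.inl (by omega)
      · refine Or.inr ⟨φ, fun a c => ?_⟩
        have h6 := hφ a c
        rw [hD] at h6
        simpa only [Nat.lt_succ_iff] using h6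

end one

/-- the hypotheses over an algebraically closed field -/
structure Hps (ρ : ∀ i, P →* (T i →ₗ[K] T i)) (σ : ∀ i, G →* (T i →ₗ[K] T i))
    (B : ∀ i, T i →ₗ[K] T i →ₗ[K] K) : Prop where
  al : ∀ i x y, B i x y = -B i y x
  nd : ∀ i x, (∀ y, B i x y = 0) → x = 0
  ne : ∀ i, ∃ x : T i, x ≠ 0
  rB : ∀ i g x y, B i (ρ i g x) (ρ i g y) = B i x y
  nrm : ∀ (γ : G) (S : Type) [Fintype S] [DecidableEq S] (s : S → ι)
    (f : MultilinearMap K (fun j => T (s j)) K), Fixd ρ s f →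
      Fixd ρ s (f.compLinearMap fun j => σ (s j) γ)
  niso : ∀ i j, i ≠ j → ∀ (ψ : T j →ₗ[K] T i) (ε : G → K),
    (∀ g x, ψ (σ j g x) = ε g • σ i g (ψ x)) → ψ = 0
  all : ∀ i x y, oo (B i) (-1) x y ∈ rs (LL ρ) i

variable {B : ∀ i, T i →ₗ[K] T i →ₗ[K] K}

/-- the members -/
def Hps.mb (h : Hps ρ σ B) (i : ι) : Ms (LL ρ) i where
  B := B i
  al := h.al i
  nd := h.nd i
  ne := h.ne i
  skew := fun hD => LL_skew (h.rB i) hD
  all := fun x y => h.all i x y

theorem Hps.good (h : Hps ρ σ B) {i j : ι} (hij : i ≠ j) : Gd (LL ρ) i j := by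
  rcases (h.mb i).good_or (h.mb j) LL_bk with h1 | ⟨ψ, h0, hψ⟩
  · exact h1
  · exfalso
    have hε : ∀ g : G, ∃ ε : K, ∀ x, ψ (σ j g x) = ε • σ i g (ψ x) := by
      intro g
      obtain ⟨ε, hε⟩ := (hψ (σ i g⁻¹ ∘ₗ ψ ∘ₗ σ j g)).1 (by
        intro D hD x
        have h1 := LL_conj (σ := σ) (γ := g) (fun S _ _ s f hf => h.nrm g S s f hf) hD
        have h2 := (hψ ψ).2 ⟨1, by rw [one_smul]⟩ _ h1 (σ j g x)
        simp only [Module.End.mul_apply] at h2
        rw [rho_inv'] at h2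
        simp only [LinearMap.comp_apply]
        rw [h2, rho_inv'])
      refine ⟨ε, fun x => ?_⟩
      have h2 := LinearMap.congr_fun hε x
      simp only [LinearMap.comp_apply, LinearMap.smul_apply] at h2
      rw [← map_smul, ← h2, rho_inv]
    choose ε hε using hε
    exact h0 (h.niso i j hij ψ ε hε)

theorem Hps.mem_LL [Fintype ι] (h : Hps ρ σ B) {E : ∀ i, T i →ₗ[K] T i}
    (hE : ∀ i, Skew (B i) (E i)) : E ∈ LL ρ := by
  classical
  have key : ∀ i, ∃ E' ∈ LL ρ, (∀ a, a ≠ i → E' a = 0) ∧ E' i = E i := by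
    intro i
    have h1 : E i ∈ rs (kl (LL ρ) {a | a ≠ i}) i := by
      refine skew_mem' (B := B i) (h.al i) (h.nd i) (fun x y => ?_) (hE i)
      obtain ⟨E', hE', h2, h3⟩ := (h.mb i).good_finset LL_bk (univ.erase i)
        (fun a ha => h.good (Finset.ne_of_mem_erase ha).symm) x y
      exact ⟨E', ⟨hE', fun a ha => h2 a (Finset.mem_erase.2 ⟨ha, Finset.mem_univ a⟩)⟩, h3⟩
    obtain ⟨E', hE', h2⟩ := h1
    exact ⟨E', hE'.1, fun a ha => hE'.2 a ha, h2⟩
  choose F hF hF0 hFi using key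
  have h1 : E = ∑ i, F i := by
    funext a
    rw [Finset.sum_apply, Finset.sum_eq_single a (fun b _ hb => hF0 b a hb.symm)
      (fun h => absurd (Finset.mem_univ a) h), hFi]
  rw [h1]
  exact Submodule.sum_mem _ fun i _ => hF i

end Pool.Agent.X292.TS
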