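import Pool.Agent.X292.TS.Pub
import Pool.Agent.X292.TG.Bun

/-!
# Bundled form of the statement
-/

set_option linter.unusedSectionVars false

namespace Pool.Agent.X292.TS

open TensorProduct Module Function Pool.Agent.X292.TG Pool.Agent.X292.AV.S

section one

variable {k : Type} [Field k] {P : Type} [Group P] {V : Type} [AddCommGroup V] [Module k V]

/-- The form is alternating, nondegenerate and preserved by `P`. -/
structure SymplecticMonodromy (B : V →ₗ[k] V →ₗ[k] k) (r : P →* (V →ₗ[k] V)) : Prop where
  anti : ∀ x y, B x y = -B y x
  nondeg : ∀ x, (∀ y, B x y = 0) → x = 0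
  preserved : ∀ g, Preserves B (r g)

/-- The group acts by similitudes of the form. -/
def Similitudes (B : V →ₗ[k] V →ₗ[k] k) (r : P →* (V →ₗ[k] V)) : Prop :=
  ∃ χ : P →* k, ∀ g x y, B (r g x) (r g y) = χ g * B x y

/-- No nonzero map commutes with the group up to a function. -/
def NoMapUpToFunction {W : Type} [AddCommGroup W] [Module k W] (r : P →* (V →ₗ[k] V))
    (r' : P →* (W →ₗ[k] W)) : Prop :=
  ∀ (ψ : V →ₗ[k] W) (ε : P → k), (∀ g x, ψ (r g x) = ε g • r' g (ψ x)) → ψ = 0

end one

section family

variable {k : Type} [Field k] {P : Type} [Group P] {ι : Type} (N : ι → FormRep k P)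

/-- Actions of a group `G` on the spaces of a family `N` of representations of `P`: by similitudes,
respecting the multilinear forms which are fixed by a subgroup of finite index of `P`, strongly
irreducible on every space, without nonzero maps between different spaces which commute with `G` up
to a function, and with an element of `P` as in `HasSpecialElement` for every space. -/
structure NormalizingGroup {G : Type} [Group G] (σ : ∀ i, G →* ((N i).V →ₗ[k] (N i).V)) : Prop where
  similitudes : ∀ i, Similitudes (N i).B (σ i)
  normal : Normalizes N σ
  irreducible : ∀ i, StronglyIrr (σ i)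
  distinct : ∀ i j, i ≠ j → NoMapUpToFunction (σ j) (σ i)
  special : ∀ i, HasSpecialElement (N i).ρ (σ i)

/-- Every multilinear map which is fixed by a subgroup of finite index of `P` is a linear
combination of products of values of the forms, multiplied by vectors. -/
def GeneratedByForms [DecidableEq ι] : Prop :=
  ∀ (M : Type) [AddCommGroup M] [Module k M] (S : Type) [Finite S] (s : S → ι)
    (f : MultilinearMap k (fun j => (N (s j)).V) M), FixedBy (fun j => (N (s j)).ρ) f →
      (fun v => f v) ∈ Submodule.span k {F | ∃ (l : ℕ) (e : Fin l × Fin 2 ≃ S) (w : M),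
        F = fun v => pairings (fun i => (N i).B) s e v • w}

/-- **The theorem.** -/
theorem bundled [CharZero k] [Finite ι] [DecidableEq ι] (hfin : ∀ i, FiniteDimensional k (N i).V)
    (hN : ∀ i, SymplecticMonodromy (N i).B (N i).ρ) {F : Type} [Field F] [IsAlgClosed F]
    [Algebra k F] {G : Type} [Group G] (σ : ∀ i, G →* (((N i).over F).V →ₗ[F] ((N i).over F).V))
    (hσ : NormalizingGroup (fun i => (N i).over F) σ) (K : Type) [Field K] [Algebra k K] :
    GeneratedByForms fun i => (N i).over K := by
  have : CharZero F := charZero_of_injective_algebraMap (algebraMap k F).injective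
  have : CharZero K := charZero_of_injective_algebraMap (algebraMap k K).injective
  have := Fintype.ofFinite ι
  intro M _ _ S _ s f hf
  classical
  have := Fintype.ofFinite S
  choose χ hχ using hσ.similitudes
  refine main (V := fun i => (N i).V) (ρ := fun i => (N i).ρ) (B := fun i => (N i).B)
    (fun i => (hN i).anti) (fun i => (hN i).nondeg) (fun i => (hN i).preserved)
    (F := F) (σ := σ) (χ := χ) hχ hσ.irreducible ?_ hσ.distinct hσ.special (K := K) ?_
  · intro γ S _ _ s f hf
    exact (fixedBy_iff fun i => (N i).over F).1
      (hσ.normal γ S s f ((fixedBy_iff fun i => (N i).over F).2 hf))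
  · exact (fixedBy_iff fun i => (N i).over K).1 hf

end family

end Pool.Agent.X292.TS
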