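import Pool.Agent.X292.TG.Gou
import Pool.Agent.X292.SP.Iso

/-!
# Goursat's lemma for Lie algebras of skew operators on several symplectic spaces
-/

set_option linter.unusedSectionVars false

namespace Pool.Agent.X292.TS

open Module Finset Function Pool.Agent.TH125.Gal Pool.Agent.Y127.G Pool.Agent.Y127.C
  Pool.Agent.X292.SP Pool.Agent.X292.TG

variable {K : Type} [Field K] [CharZero K] {ι : Type} {T : ι → Type}
  [∀ i, AddCommGroup (T i)] [∀ i, Module K (T i)] [∀ i, FiniteDimensional K (T i)]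

/-- a member on which the skew operators occur -/
structure Ms (𝔪 : Submodule K (∀ i, T i →ₗ[K] T i)) (t : ι) where
  B : T t →ₗ[K] T t →ₗ[K] K
  al : ∀ x y, B x y = -B y x
  nd : ∀ x, (∀ y, B x y = 0) → x = 0
  ne : ∃ x : T t, x ≠ 0
  skew : ∀ {D : ∀ i, T i →ₗ[K] T i}, D ∈ 𝔪 → Skew B (D t)
  all : ∀ x y, ∃ D ∈ 𝔪, D t = oo B (-1) x y

variable {𝔪 : Submodule K (∀ i, T i →ₗ[K] T i)} {t t' : ι} (o : Ms 𝔪 t) (o' : Ms 𝔪 t')
  (hbk : ∀ D ∈ 𝔪, ∀ D' ∈ 𝔪, bk D D' ∈ 𝔪)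

/-- **A nonzero ideal is everything.** -/
theorem Ms.ideal {M : Submodule K (∀ i, T i →ₗ[K] T i)} (hM1 : M ≤ 𝔪)
    (hMi : ∀ D ∈ 𝔪, ∀ D' ∈ M, bk D D' ∈ M) (hne : ∃ D ∈ M, D t ≠ 0) (x y : T t) :
    ∃ D ∈ M, D t = oo o.B (-1) x y := by
  obtain ⟨D0, hD0, hne⟩ := hne
  refine simple_sp (a := rs M t) o.al o.nd ?_ ?_ (A := D0 t) ⟨D0, hD0, rfl⟩ hne x y
  · rintro _ ⟨D, hD, rfl⟩
    exact o.skew (hM1 hD)
  · rintro u v _ ⟨D, hD, rfl⟩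
    obtain ⟨D', hD', ha⟩ := o.all u v
    refine ⟨bk D' D, hMi D' hD' D hD, ?_⟩
    change bk D' D t = _
    rw [bk_eq, ha]
    rfl

include hbk in
theorem Ms.good_all {a : ι} (h : Gd 𝔪 t a) (x y : (T t)) :
    ∃ D ∈ 𝔪, D a = 0 ∧ D t = oo o.B (-1) x y := by
  obtain ⟨D0, hD0, ha, ht⟩ := h
  obtain ⟨D, hD, hDt⟩ := o.ideal (M := kl 𝔪 {a}) (fun D hD => hD.1)
    (fun D hD D' hD' => kl_bk hbk hD hD')
    ⟨D0, ⟨hD0, fun b hb => by rw [Set.mem_singleton_iff.1 hb]; exact ha⟩, ht⟩ x y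
  exact ⟨D, hD.1, hD.2 a rfl, hDt⟩

include hbk in
/-- **Goursat.** -/
theorem Ms.good_finset (S : Finset ι) (h : ∀ a ∈ S, Gd 𝔪 t a) (x y : (T t)) :
    ∃ D ∈ 𝔪, (∀ a ∈ S, D a = 0) ∧ D t = oo o.B (-1) x y := by
  classical
  induction S using Finset.induction_on generalizing x y with
  | empty =>
    obtain ⟨D, hD, hDt⟩ := o.all x y
    exact ⟨D, hD, fun a ha => absurd ha (Finset.notMem_empty a), hDt⟩
  | insert b S hb ih =>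
    have h1 : ∀ x y, ∃ D ∈ 𝔪, (∀ a ∈ S, D a = 0) ∧ D t = oo o.B (-1) x y := fun x y =>
      ih (fun a ha => h a (Finset.mem_insert_of_mem ha)) x y
    have h2 : ∀ x y, ∃ D ∈ 𝔪, D b = 0 ∧ D t = oo o.B (-1) x y := fun x y =>
      o.good_all hbk (h b (Finset.mem_insert_self b S)) x y
    obtain ⟨u, v, hu⟩ := exists_br_ne' o.al o.nd o.ne
    obtain ⟨D, hD, hDS, hDt⟩ := h1 u u
    obtain ⟨D', hD', hDb, hDt'⟩ := h2 v v
    have hm : bk D D' ∈ kl 𝔪 ((insert b S : Finset ι) : Set ι) := by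
      refine ⟨hbk _ hD _ hD', fun a ha => ?_⟩
      rcases Finset.mem_insert.1 (Finset.mem_coe.1 ha) with rfl | ha
      · rw [bk_eq, hDb, br_zero_right]
      · rw [bk_eq, hDS a ha, br_zero_left]
    have hne : bk D D' t ≠ 0 := by
      rw [bk_eq, hDt, hDt']
      exact hu
    obtain ⟨D'', hD'', hDt''⟩ := o.ideal (M := kl 𝔪 ((insert b S : Finset ι) : Set ι))
      (fun D hD => hD.1) (fun D hD D' hD' => kl_bk hbk hD hD') ⟨bk D D', hm, hne⟩ x y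
    exact ⟨D'', hD''.1, fun a ha => hD''.2 a (Finset.mem_coe.2 ha), hDt''⟩

include o o' hbk in
/-- symmetry -/
theorem Ms.good_symm (h : Gd 𝔪 t' t) : Gd 𝔪 t t' := by
  by_contra hng
  have h0 : ∀ D ∈ 𝔪, D t' = 0 → D t = 0 := by
    intro D hD ha
    by_contra ht
    exact hng ⟨D, hD, ha, ht⟩
  -- everything on `t'` can be killed on `t`
  have h2 : ∀ X : Module.End K (T t'), Skew o'.B X → ∃ D ∈ kl 𝔪 {t}, D t' = X := fun X hX =>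
    skew_mem' (a := rs (kl 𝔪 {t}) t') o'.al o'.nd (fun x y => by
      obtain ⟨D, hD, hDt, hDt'⟩ := o'.good_all hbk h x y
      exact ⟨D, ⟨hD, fun a ha => by rw [Set.mem_singleton_iff.1 ha]; exact hDt⟩, hDt'⟩) hX
  obtain ⟨x, hx⟩ := o.ne
  obtain ⟨D1, hD1, hD1t⟩ := o.all x x
  obtain ⟨D2, hD2, hD2t⟩ := h2 _ (o'.skew hD1)
  have h3 := h0 (D1 - D2) (𝔪.sub_mem hD1 hD2.1) (by rw [Pi.sub_apply, hD2t, sub_self])
  rw [Pi.sub_apply, hD2.2 t rfl, sub_zero, hD1t] at h3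
  exact o_diag_ne o.nd hx h3

include o o' hbk in
/-- **Members which are not independent are isomorphic.** -/
theorem Ms.good_or [IsAlgClosed K] : Gd 𝔪 t t' ∨
    ∃ ψ : T t' →ₗ[K] T t, ψ ≠ 0 ∧ ∀ χ : T t' →ₗ[K] T t,
      (∀ D ∈ 𝔪, ∀ x, χ (D t' x) = D t (χ x)) ↔ ∃ ε : K, χ = ε • ψ := by
  by_contra hcon
  rw [not_or] at hcon
  obtain ⟨hng, hcon⟩ := hcon
  apply hcon
  have h0 : ∀ D ∈ 𝔪, D t' = 0 → D t = 0 := by
    intro D hD ha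
    by_contra ht
    exact hng ⟨D, hD, ha, ht⟩
  -- the lifts
  have hlift : ∀ X : Module.End K (T t'), Skew o'.B X → ∃ D ∈ 𝔪, D t' = X := fun X hX =>
    skew_mem' (a := rs 𝔪 t') o'.al o'.nd (fun x y => o'.all x y) hX
  have h0' : ∀ D ∈ 𝔪, D t = 0 → D t' = 0 := by
    intro D hD ha
    by_contra ht
    exact hng (o.good_symm o' hbk ⟨D, hD, ha, ht⟩)
  let f : 𝔪 →ₗ[K] Module.End K (T t') :=
    (LinearMap.proj t' : (∀ i, T i →ₗ[K] T i) →ₗ[K] _) ∘ₗ 𝔪.subtype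
  let g : 𝔪 →ₗ[K] Module.End K (T t) :=
    (LinearMap.proj t : (∀ i, T i →ₗ[K] T i) →ₗ[K] _) ∘ₗ 𝔪.subtype
  obtain ⟨Φ, hΦ⟩ := exists_factor f g fun x hx => h0 x.1 x.2 hx
  have hΦ' : ∀ D ∈ 𝔪, Φ (D t') = D t := fun D hD => hΦ ⟨D, hD⟩
  have hΦs : ∀ X, Skew o'.B X → Skew o.B (Φ X) := by
    intro X hX
    obtain ⟨D, hD, rfl⟩ := hlift X hX
    rw [hΦ' D hD]
    exact o.skew hD
  have hΦb : ∀ X Y, Skew o'.B X → Skew o'.B Y → Φ (br X Y) = br (Φ X) (Φ Y) := by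
    intro X Y hX hY
    obtain ⟨D, hD, rfl⟩ := hlift X hX
    obtain ⟨D', hD', rfl⟩ := hlift Y hY
    rw [hΦ' D hD, hΦ' D' hD', ← bk_eq, hΦ' _ (hbk _ hD _ hD'), bk_eq]
  have hΦi : ∀ X, Skew o'.B X → Φ X = 0 → X = 0 := by
    intro X hX hX0
    obtain ⟨D, hD, rfl⟩ := hlift X hX
    rw [hΦ' D hD] at hX0
    exact h0' D hD hX0
  have hΦo : ∀ x y, ∃ X, Skew o'.B X ∧ Φ X = oo o.B (-1) x y := by
    intro x y
    obtain ⟨D, hD, hDt⟩ := o.all x y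
    exact ⟨D t', o'.skew hD, by rw [hΦ' D hD, hDt]⟩
  obtain ⟨ψ, hψ0, hψ, hψu⟩ := exists_psi' (Φ := Φ) o.al o.nd o'.al o'.nd hΦs hΦb hΦi hΦo o'.ne
  refine ⟨ψ, hψ0, fun χ => ⟨fun hχ => hψu χ fun X hX x => ?_, ?_⟩⟩
  · obtain ⟨D, hD, rfl⟩ := hlift X hX
    rw [hχ D hD, hΦ' D hD]
  · rintro ⟨ε, rfl⟩ D hD x
    rw [LinearMap.smul_apply, LinearMap.smul_apply, map_smul, ← hψ _ (o'.skew hD), hΦ' D hD]

end Pool.Agent.X292.TS
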