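import Pool.Agent.X292.TS.Lvl
import Pool.Agent.X292.TG.Clo
import Pool.Agent.X292.AV.Fft

/-!
# Statement over all fields
-/

set_option linter.unusedSectionVars false

namespace Pool.Agent.X292.TS

open TensorProduct Module Function Finset Pool.Agent.TH125.Gal Pool.Agent.Y127.G
  Pool.Agent.Y127.C Pool.Agent.X292.SP Pool.Agent.X292.TG

section one

variable {k : Type} [Field k] {V : Type} [AddCommGroup V] [Module k V] [CharZero k]
  [FiniteDimensional k V] {K : Type} [Field K] [CharZero K] [Algebra k K]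
  {B : V →ₗ[k] V →ₗ[k] k}

theorem bcB_al (hal : ∀ x y, B x y = -B y x) (z z' : K ⊗[k] V) :
    bcB K B z z' = -bcB K B z' z := by
  have h : bcB K B = -(bcB K B).flip := bil_ext fun x y => by
    rw [LinearMap.neg_apply, LinearMap.neg_apply, LinearMap.flip_apply, bcB_one, bcB_one, hal,
      map_neg]
  exact LinearMap.congr_fun (LinearMap.congr_fun h z) z'

theorem bc_o (x y : V) : (oo B (-1) x y).baseChange K =
    oo (bcB K B) (-1) ((1 : K) ⊗ₜ x) ((1 : K) ⊗ₜ y) := by
  refine lin_ext fun z => ?_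
  rw [LinearMap.baseChange_tmul, o_apply, o_apply, bcB_one, bcB_one,
    TensorProduct.tmul_add, TensorProduct.tmul_smul, TensorProduct.tmul_smul, algebraMap_smul,
    algebraMap_smul]

/-- the operators `oo` on a base change -/
theorem o_mem_bc {a : Submodule K (Module.End K (K ⊗[k] V))}
    (h : ∀ x y : V, (oo B (-1) x y).baseChange K ∈ a) (z z' : K ⊗[k] V) :
    oo (bcB K B) (-1) z z' ∈ a := by
  induction z using TensorProduct.induction_on with
  | zero => rw [oo_zero_left]; exact a.zero_mem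
  | tmul c w =>
    rw [tm_eq c w, oo_smul_left]
    refine a.smul_mem _ ?_
    induction z' using TensorProduct.induction_on with
    | zero => rw [oo_zero_right]; exact a.zero_mem
    | tmul c' w' =>
      rw [tm_eq c' w', oo_smul_right]
      refine a.smul_mem _ ?_
      rw [← bc_o]
      exact h w w'
    | add x y hx hy => rw [oo_add_right]; exact a.add_mem hx hy
  | add x y hx hy => rw [oo_add_left]; exact a.add_mem hx hy

end one

section

variable {k : Type} [Field k] [CharZero k] {P G : Type} [Group P] [Group G] {ι : Type}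
  {V : ι → Type} [∀ i, AddCommGroup (V i)] [∀ i, Module k (V i)] [∀ i, FiniteDimensional k (V i)]
  {ρ : ∀ i, P →* (V i →ₗ[k] V i)} {B : ∀ i, V i →ₗ[k] V i →ₗ[k] k}

/-- all coefficient fields follow from the base field -/
theorem all_fields (hal : ∀ i x y, B i x y = -B i y x)
    (hnd : ∀ i x, (∀ y, B i x y = 0) → x = 0) [Fintype ι]
    (h : ∀ D : ∀ i, V i →ₗ[k] V i, (∀ i, Skew (B i) (D i)) → D ∈ LL ρ)
    {K : Type} [Field K] [CharZero K] [Algebra k K] {M : Type} [AddCommGroup M] [Module K M]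
    {S : Type} [Fintype S] [DecidableEq S] {s : S → ι}
    {f : MultilinearMap K (fun j => K ⊗[k] V (s j)) M}
    (hf : Fixd (T := fun i => K ⊗[k] V i) (bcR K ρ) s f)
    {D : ∀ i, (K ⊗[k] V i) →ₗ[K] (K ⊗[k] V i)} (hD : ∀ i, Skew (bcB K (B i)) (D i)) :
    Kil (T := fun i => K ⊗[k] V i) s D f := by
  classical
  -- the operators
  let 𝔪 : Submodule k (∀ i, V i →ₗ[k] V i) :=
    { carrier := {D | ∀ i, Skew (B i) (D i)}
      zero_mem' := fun i => Submodule.zero_mem (SkewS (B i))
      add_mem' := fun hD hD' i => Submodule.add_mem (SkewS (B i)) (hD i) (hD' i)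
      smul_mem' := fun c _ hD i => Submodule.smul_mem (SkewS (B i)) c (hD i) }
  have hmem : D ∈ spn K 𝔪 := by
    have key : ∀ i, ∃ E' ∈ spn K 𝔪, (∀ a, a ≠ i → E' a = 0) ∧ E' i = D i := by
      intro i
      have h1 : D i ∈ rs (T := fun i => K ⊗[k] V i) (kl (spn K 𝔪) {a | a ≠ i}) i := by
        refine skew_mem' (B := bcB K (B i)) (bcB_al (hal i)) (bcB_nondeg (hnd i))
          (fun x y => ?_) (hD i)
        refine o_mem_bc (fun x y => ?_) x y
        refine ⟨bcD K (fun a => if h : a = i then by subst h; exact oo (B a) (-1) x y else 0),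
          ⟨bcD_mem fun a => ?_, fun a ha => ?_⟩, ?_⟩
        · by_cases h : a = i
          · subst h
            rw [dif_pos rfl]
            exact o_skew (hal a) x y
          · rw [dif_neg h]
            exact Submodule.zero_mem (SkewS (B a))
        · change ((if h : a = i then _ else 0 : V a →ₗ[k] V a)).baseChange K = 0
          rw [dif_neg ha]
          exact LinearMap.baseChange_zero
        · change ((if h : i = i then _ else 0 : V i →ₗ[k] V i)).baseChange K = _
          rw [dif_pos rfl]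
      obtain ⟨E', hE', h2⟩ := h1
      exact ⟨E', hE'.1, fun a ha => hE'.2 a ha, h2⟩
    choose F hF hF0 hFi using key
    have h1 : D = ∑ i, F i := by
      funext a
      rw [Finset.sum_apply, Finset.sum_eq_single a (fun b _ hb => hF0 b a hb.symm)
        (fun h => absurd (Finset.mem_univ a) h), hFi]
    rw [h1]
    exact Submodule.sum_mem _ fun i _ => hF i
  refine spn_kil (𝔪 := 𝔪) (fun D' hD' => ?_) D hmem
  -- the forms
  have hpure : ∀ v : ∀ j, V (s j), ∑ j, f (update (fun j => (1 : K) ⊗ₜ[k] v j) j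
      (bcD K D' (s j) ((1 : K) ⊗ₜ[k] v j))) = 0 := by
    intro v
    let _ : Module k M := Module.compHom M (algebraMap k K)
    have : IsScalarTower k K M := ⟨fun a b m => by
      rw [Algebra.smul_def, mul_smul]
      rfl⟩
    rw [← Module.forall_dual_apply_eq_zero_iff k]
    intro lam
    let f' : MultilinearMap k (fun j => V (s j)) k :=
      { toFun := fun v => lam (f fun j => (1 : K) ⊗ₜ[k] v j)
        map_update_add' := by
          intro _ v j x y
          have e : ∀ x, (fun i => (1 : K) ⊗ₜ[k] (update v j x i)) =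
              update (fun i => (1 : K) ⊗ₜ[k] v i) j ((1 : K) ⊗ₜ[k] x) := by
            intro x
            funext i
            by_cases h : i = j
            · subst h
              rw [update_self, update_self]
            · rw [update_of_ne h, update_of_ne h]
          rw [e, e, e, TensorProduct.tmul_add, f.map_update_add, map_add]
        map_update_smul' := by
          intro _ v j c x
          have e : ∀ x, (fun i => (1 : K) ⊗ₜ[k] (update v j x i)) =
              update (fun i => (1 : K) ⊗ₜ[k] v i) j ((1 : K) ⊗ₜ[k] x) := by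
            intro x
            funext i
            by_cases h : i = j
            · subst h
              rw [update_self, update_self]
            · rw [update_of_ne h, update_of_ne h]
          rw [e, e, TensorProduct.tmul_smul, ← algebraMap_smul K c, f.map_update_smul,
            algebraMap_smul, map_smul] }
    have hf' : Fixd ρ s f' := by
      obtain ⟨Δ, hΔ, h1⟩ := hf
      refine ⟨Δ, hΔ, fun g hg v => ?_⟩
      change lam (f fun j => (1 : K) ⊗ₜ[k] (ρ (s j) g (v j))) = lam (f fun j => (1 : K) ⊗ₜ[k] v j)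
      rw [← h1 g hg fun j => (1 : K) ⊗ₜ[k] v j]
      rfl
    have h1 := h D' hD' S s f' hf' v
    rw [map_sum]
    rw [← h1]
    refine Finset.sum_congr rfl fun j _ => ?_
    change _ = lam (f fun i => (1 : K) ⊗ₜ[k] (update v j (D' (s j) (v j)) i))
    rw [← upd_tmul]
    rfl
  have h1 : (∑ j, f.compLinearMap (fun i => if i = j then bcD K D' (s i) else LinearMap.id)) =
      0 := by
    refine bc_ext fun v => ?_
    rw [_root_.sum_apply]
    have h2 : ∀ j, f.compLinearMap (fun i => if i = j then bcD K D' (s i) else LinearMap.id)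
        (fun j => (1 : K) ⊗ₜ[k] v j) = f (update (fun j => (1 : K) ⊗ₜ[k] v j) j
          (bcD K D' (s j) ((1 : K) ⊗ₜ[k] v j))) := fun j =>
      upd_comp (T := fun i => K ⊗[k] V i) f (bcD K D') j _
    rw [Finset.sum_congr rfl fun j _ => h2 j, hpure v]
    rfl
  intro v
  have h2 := congrArg (fun G : MultilinearMap K (fun j => K ⊗[k] V (s j)) M => G v) h1
  simp only [_root_.sum_apply, _root_.zero_apply] at h2
  rw [← h2]
  exact Finset.sum_congr rfl fun j _ =>
    (upd_comp (T := fun i => K ⊗[k] V i) f (bcD K D') j v).symm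

theorem ne_of_element {K : Type} [Field K] [CharZero K] {W : Type} [AddCommGroup W] [Module K W]
    [FiniteDimensional K W] {P G : Type} [Group P] [Group G] {ρ : P →* Module.End K W}
    {σ : G →* Module.End K W} (h : HasSpecialElement ρ σ) : ∃ x : W, x ≠ 0 := by
  by_contra hcon
  push Not at hcon
  have hs : Subsingleton W := ⟨fun a b => by rw [hcon a, hcon b]⟩
  have hfr : ∀ U : Submodule K W, finrank K U = 0 := fun U => finrank_zero_of_subsingleton
  obtain ⟨g, ⟨_, h⟩ | h | h⟩ := h
  · have hd : ∀ d, IsDefect ρ σ g d → d = 0 := by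
      rintro d (h | ⟨_, _, _, a, _, h⟩)
      · rw [h, hfr]
      · rw [h, hfr]
    rcases h with h | h
    · obtain ⟨d, h1, h2⟩ := h 2 Nat.prime_two
      exact h2 (by rw [hd d h1]; exact dvd_zero 2)
    · exact two_ne_zero (hd 2 h)
  · apply h.2.1
    unfold jordanBlocks
    rw [hfr, hfr]
  · have h1 := h.1.2.1
    rw [finrank_zero_of_subsingleton] at h1
    omega

/-- **The theorem, operators.** -/
theorem main_op [Fintype ι] (hal : ∀ i x y, B i x y = -B i y x)
    (hnd : ∀ i x, (∀ y, B i x y = 0) → x = 0)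
    (hrB : ∀ i g x y, B i (ρ i g x) (ρ i g y) = B i x y)
    {F : Type} [Field F] [CharZero F] [IsAlgClosed F] [Algebra k F]
    {σ : ∀ i, G →* ((F ⊗[k] V i) →ₗ[F] (F ⊗[k] V i))} {χ : ι → G →* F}
    (hsB : ∀ i g x y, bcB F (B i) (σ i g x) (σ i g y) = χ i g * bcB F (B i) x y)
    (hSI : ∀ i, SI (σ i))
    (hnrm : ∀ (γ : G) (S : Type) [Fintype S] [DecidableEq S] (s : S → ι)
      (f : MultilinearMap F (fun j => F ⊗[k] V (s j)) F),
      Fixd (T := fun i => F ⊗[k] V i) (bcR F ρ) s f →
        Fixd (T := fun i => F ⊗[k] V i) (bcR F ρ) s (f.compLinearMap fun j => σ (s j) γ))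
    (hniso : ∀ i j, i ≠ j → ∀ (ψ : (F ⊗[k] V j) →ₗ[F] (F ⊗[k] V i)) (ε : G → F),
      (∀ g x, ψ (σ j g x) = ε g • σ i g (ψ x)) → ψ = 0)
    (hel : ∀ i, HasSpecialElement (bcR F ρ i) (σ i))
    {K : Type} [Field K] [CharZero K] [Algebra k K] {M : Type} [AddCommGroup M] [Module K M]
    {S : Type} [Fintype S] [DecidableEq S] {s : S → ι}
    {f : MultilinearMap K (fun j => K ⊗[k] V (s j)) M}
    (hf : Fixd (T := fun i => K ⊗[k] V i) (bcR K ρ) s f)
    {D : ∀ i, (K ⊗[k] V i) →ₗ[K] (K ⊗[k] V i)} (hD : ∀ i, Skew (bcB K (B i)) (D i)) :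
    Kil (T := fun i => K ⊗[k] V i) s D f := by
  have hrB' : ∀ i g x y, bcB F (B i) (bcR F ρ i g x) (bcR F ρ i g y) = bcB F (B i) x y :=
    fun i g x y => bcB_isom (hrB i g) x y
  have hH : Hps (T := fun i => F ⊗[k] V i) (bcR F ρ) σ (fun i => bcB F (B i)) :=
    { al := fun i => bcB_al (hal i)
      nd := fun i => bcB_nondeg (hnd i)
      ne := fun i => ne_of_element (hel i)
      rB := hrB'
      nrm := hnrm
      niso := hniso
      all := fun i x y => all_of_element (T := fun i => F ⊗[k] V i) (σ := σ) (bcB_al (hal i))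
        (bcB_nondeg (hnd i)) (hrB' i) (hsB i) (hSI i) hnrm (hel i) x y }
  refine all_fields hal hnd (fun D hD S _ _ s f hf => ?_) hf hD
  obtain ⟨f', hf'⟩ := exists_bc (K := F) f
  rw [kil_bc hf']
  exact hH.mem_LL (fun i => bcB_skew (hD i)) S s f' (fixd_bc hf' hf)

/-- **The theorem.** -/
theorem main [Fintype ι] [DecidableEq ι] (hal : ∀ i x y, B i x y = -B i y x)
    (hnd : ∀ i x, (∀ y, B i x y = 0) → x = 0)
    (hrB : ∀ i g x y, B i (ρ i g x) (ρ i g y) = B i x y)
    {F : Type} [Field F] [CharZero F] [IsAlgClosed F] [Algebra k F]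
    {σ : ∀ i, G →* ((F ⊗[k] V i) →ₗ[F] (F ⊗[k] V i))} {χ : ι → G →* F}
    (hsB : ∀ i g x y, bcB F (B i) (σ i g x) (σ i g y) = χ i g * bcB F (B i) x y)
    (hSI : ∀ i, SI (σ i))
    (hnrm : ∀ (γ : G) (S : Type) [Fintype S] [DecidableEq S] (s : S → ι)
      (f : MultilinearMap F (fun j => F ⊗[k] V (s j)) F),
      Fixd (T := fun i => F ⊗[k] V i) (bcR F ρ) s f →
        Fixd (T := fun i => F ⊗[k] V i) (bcR F ρ) s (f.compLinearMap fun j => σ (s j) γ))
    (hniso : ∀ i j, i ≠ j → ∀ (ψ : (F ⊗[k] V j) →ₗ[F] (F ⊗[k] V i)) (ε : G → F),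
      (∀ g x, ψ (σ j g x) = ε g • σ i g (ψ x)) → ψ = 0)
    (hel : ∀ i, HasSpecialElement (bcR F ρ i) (σ i))
    {K : Type} [Field K] [CharZero K] [Algebra k K] {M : Type} [AddCommGroup M] [Module K M]
    {S : Type} [Fintype S] [DecidableEq S] {s : S → ι}
    {f : MultilinearMap K (fun j => K ⊗[k] V (s j)) M}
    (hf : Fixd (T := fun i => K ⊗[k] V i) (bcR K ρ) s f) :
    (fun v => f v) ∈ Submodule.span K {F : (∀ j, K ⊗[k] V (s j)) → M |
      ∃ (l : ℕ) (e : Fin l × Fin 2 ≃ S) (w : M), F = fun v =>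
        Pool.Agent.X292.AV.S.pairings (V := fun i => K ⊗[k] V i) (fun i => bcB K (B i)) s e v •
          w} := by
  refine Pool.Agent.X292.AV.mem_span (V := fun i => K ⊗[k] V i) (ω := fun i => bcB K (B i))
    (fun i => bcB_al (hal i)) (fun i => bcB_nondeg (hnd i)) ?_
  intro i x y
  have h1 : ∀ j, ∃ D : (K ⊗[k] V j) →ₗ[K] (K ⊗[k] V j), Skew (bcB K (B j)) D ∧
      (j ≠ i → D = 0) ∧ (∀ h : j = i, D = h ▸ oo (bcB K (B i)) (-1) x y) := by
    intro j
    by_cases h : j = i
    · subst h
      exact ⟨oo (bcB K (B j)) (-1) x y, o_skew (bcB_al (hal j)) x y, fun h => absurd rfl h,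
        fun _ => rfl⟩
    · exact ⟨0, Submodule.zero_mem (SkewS (bcB K (B j))), fun _ => rfl, fun h' => absurd h' h⟩
  choose D h1 h2 h3 using h1
  exact ⟨D, h3 i rfl, h2, main_op hal hnd hrB hsB hSI hnrm hniso hel hf h1⟩

end

end Pool.Agent.X292.TS
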